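import Pool.Agent.MP_3ee8cb_gt.DN.Spec

/-! The deck group acts on the frame data. -/

namespace Pool.Agent.MP_3ee8cb_gt.DN

variable [Dim]

open Set
open CR (Met UT Riem Deck tm)
open scoped RealInnerProductSpace

noncomputable section

namespace AC

variable {m : MF}

/-- Integral curves of the geodesic field are orbits of the flow. -/
theorem uniq (ok : m.OK) {c : ℝ → V × V} (hc : ∀ s, HasDerivAt c (m.vf (c s)) s) (t : ℝ) :
    c t = m.Z t (c 0) := by
  have hF : ∀ q, HasFDerivAt (fun q : ℝ × V × V => m.Z q.1 q.2)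
      (fderiv ℝ (fun q : ℝ × V × V => m.Z q.1 q.2) q) q := fun q =>
    (ok.cZ.differentiable one_ne_zero q).hasFDerivAt
  have h0 : ∀ (s : ℝ) (p : V × V),
      fderiv ℝ (fun q : ℝ × V × V => m.Z q.1 q.2) (-s, p) (-1, m.vf p) = 0 := fun s p => by
    have h1 : HasDerivAt (fun r : ℝ => (-s - r, m.Z r p)) ((-1 : ℝ), m.vf p) 0 := by
      have h2 := ok.ode p 0
      rw [ok.zero] at h2
      exact ((hasDerivAt_id (0 : ℝ)).const_sub (-s)).prodMk h2
    have h3 := (hF ((fun r : ℝ => (-s - r, m.Z r p)) 0)).comp_hasDerivAt 0 h1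
    have h4 : ((fun q : ℝ × V × V => m.Z q.1 q.2) ∘ fun r : ℝ => (-s - r, m.Z r p)) =
        fun _ => m.Z (-s) p := by
      funext r
      show m.Z (-s - r) (m.Z r p) = m.Z (-s) p
      rw [← ok.add, sub_add_cancel]
    rw [h4] at h3
    have h5 := h3.unique (hasDerivAt_const _ _)
    simpa only [sub_zero, ok.zero] using h5
  have h1 : ∀ s, HasDerivAt (fun s => m.Z (-s) (c s)) 0 s := fun s => by
    have h2 : HasDerivAt (fun r : ℝ => (-r, c r)) ((-1 : ℝ), m.vf (c s)) s :=
      (hasDerivAt_neg s).prodMk (hc s)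
    have h3 := (hF ((fun r : ℝ => (-r, c r)) s)).comp_hasDerivAt s h2
    rw [show fderiv ℝ (fun q : ℝ × V × V => m.Z q.1 q.2) ((fun r : ℝ => (-r, c r)) s)
      ((-1 : ℝ), m.vf (c s)) = 0 from h0 s (c s)] at h3
    exact h3
  have h2 : m.Z (-t) (c t) = m.Z (-0) (c 0) :=
    is_const_of_deriv_eq_zero (f := fun s => m.Z (-s) (c s)) (fun s => (h1 s).differentiableAt)
      (fun s => (h1 s).deriv) t 0
  rw [neg_zero, ok.zero] at h2
  rw [← h2, ← ok.add, add_neg_cancel, ok.zero]

/-- The derivative of `f` in the frames. -/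
def L (m : MF) (f : V → V) (x : V) : V →L[ℝ] V :=
  (m.S (f x)).comp ((fderiv ℝ f x).comp (m.R x))

theorem L_c1 (ok : m.OK) {f : V → V} (hf : ContDiff ℝ 2 f) : ContDiff ℝ 1 (L m f) := by
  have h1 : ContDiff ℝ 1 (fderiv ℝ f) := hf.fderiv_right (m := 1) (by norm_num)
  have h2 : ContDiff ℝ 1 fun x => m.S (f x) :=
    (ok.cS.of_le (by norm_num)).comp (hf.of_le (by norm_num))
  exact h2.clm_comp (h1.clm_comp (ok.cR.of_le (by norm_num)))

theorem L_S (ok : m.OK) (f : V → V) (x u : V) : L m f x (m.S x u) = m.S (f x) (fderiv ℝ f x u) := by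
  simp only [L, ContinuousLinearMap.comp_apply, ok.RS]

theorem tri_zero (τ : V → V → V → ℝ) (h1 : ∀ a b c, τ a b c = τ b a c)
    (h2 : ∀ a b c, τ a b c = -τ a c b) (a b c : V) : τ a b c = 0 := by
  have e1 := h1 a b c
  have e2 := h2 b a c
  have e3 := h1 b c a
  have e4 := h2 c b a
  have e5 := h1 c a b
  have e6 := h2 a c b
  linarith

/-- The connection form is invariant under isometries. -/
theorem conn (ok : m.OK) {f : V → V} (hf : ContDiff ℝ 2 f)
    (hi : ∀ x a b, ⟪L m f x a, L m f x b⟫ = ⟪a, b⟫) (x u a : V) :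
    fderiv ℝ (L m f) x u a + m.om (f x) (fderiv ℝ f x u) (L m f x a) = L m f x (m.om x u a) := by
  have hL : HasFDerivAt (L m f) (fderiv ℝ (L m f) x) x :=
    ((L_c1 ok hf).differentiable one_ne_zero x).hasFDerivAt
  have hS : ∀ y, HasFDerivAt m.S (fderiv ℝ m.S y) y := fun y =>
    (ok.cS.differentiable two_ne_zero y).hasFDerivAt
  have hD : HasFDerivAt f (fderiv ℝ f x) x := (hf.differentiable two_ne_zero x).hasFDerivAt
  have hDD : HasFDerivAt (fderiv ℝ f) (fderiv ℝ (fderiv ℝ f) x) x :=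
    ((hf.fderiv_right (m := 1) (by norm_num)).differentiable one_ne_zero x).hasFDerivAt
  have hsym : ∀ v w, fderiv ℝ (fderiv ℝ f) x v w = fderiv ℝ (fderiv ℝ f) x w v := fun v w =>
    (hf.contDiffAt.isSymmSndFDerivAt (by simp)) v w
  have e1 : ∀ v w, fderiv ℝ (L m f) x v (m.S x w) + L m f x (fderiv ℝ m.S x v w) =
      fderiv ℝ m.S (f x) (fderiv ℝ f x v) (fderiv ℝ f x w) +
        m.S (f x) (fderiv ℝ (fderiv ℝ f) x v w) := fun v w => by
    have a1 := hL.clm_apply ((hS x).clm_apply (hasFDerivAt_const w x))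
    have a2 := ((hS (f x)).comp x hD).clm_apply (hDD.clm_apply (hasFDerivAt_const w x))
    have a3 : (fun y => L m f y (m.S y w)) = fun y => (m.S ∘ f) y (fderiv ℝ f y w) :=
      funext fun y => L_S ok f y w
    rw [a3] at a1
    have a4 := congrArg (fun T : V →L[ℝ] V => T v) (a1.unique a2)
    simp only [add_apply, ContinuousLinearMap.comp_apply,
      ContinuousLinearMap.flip_apply, zero_apply, map_zero, zero_add,
      Function.comp_apply] at a4
    rw [add_comm, a4, add_comm]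
  have e2 : ∀ v b c, ⟪fderiv ℝ (L m f) x v b, L m f x c⟫ =
      -⟪L m f x b, fderiv ℝ (L m f) x v c⟫ := fun v b c => by
    have a1 := (hL.clm_apply (hasFDerivAt_const b x)).inner ℝ
      (hL.clm_apply (hasFDerivAt_const c x))
    have a3 : (fun y => ⟪L m f y b, L m f y c⟫) = fun _ => ⟪b, c⟫ := funext fun y => hi y b c
    rw [a3] at a1
    have a4 := congrArg (fun T : V →L[ℝ] ℝ => T v) (a1.unique (hasFDerivAt_const _ x))
    simp only [add_apply, ContinuousLinearMap.comp_apply,
      ContinuousLinearMap.flip_apply, zero_apply, map_zero, zero_add,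
      ContinuousLinearMap.prod_apply, fderivInnerCLM_apply] at a4
    linarith
  set T : V → V → V := fun v b => fderiv ℝ (L m f) x v b +
    m.om (f x) (fderiv ℝ f x v) (L m f x b) - L m f x (m.om x v b) with hT
  have e3 : ∀ v w, T v (m.S x w) = T w (m.S x v) := fun v w => by
    have a1 := e1 v w
    have a2 := e1 w v
    have a3 := ok.tors (f x) (fderiv ℝ f x v) (fderiv ℝ f x w)
    have a4 := congrArg (L m f x) (ok.tors x v w)
    rw [map_sub, map_add, map_sub, map_zero] at a4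
    rw [hsym w v] at a2
    simp only [hT, L_S ok]
    linear_combination (norm := module) a1 - a2 + a3 - a4
  have e4 : ∀ b c d, ⟪T (m.R x b) c, L m f x d⟫ = 0 := by
    refine tri_zero (fun b c d => ⟪T (m.R x b) c, L m f x d⟫) (fun b c d => ?_) fun b c d => ?_
    · have a1 := e3 (m.R x b) (m.R x c)
      rw [ok.SR, ok.SR] at a1
      simp only [a1]
    · simp only [hT, inner_sub_left, inner_add_left, hi]
      rw [e2, ok.skew (f x), ok.skew x, real_inner_comm (L m f x c), real_inner_comm (L m f x c),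
        real_inner_comm c]
      ring
  have e5 : Function.Surjective (L m f x) := by
    have a1 : Function.Injective (L m f x).toLinearMap := by
      refine (injective_iff_map_eq_zero _).2 fun b hb => ?_
      have a2 := hi x b b
      rw [show L m f x b = 0 from hb, inner_zero_left] at a2
      exact inner_self_eq_zero.1 a2.symm
    exact LinearMap.injective_iff_surjective.1 a1
  obtain ⟨d, hd⟩ := e5 (T u a)
  have e6 := e4 (m.S x u) a d
  rw [ok.RS, hd, inner_self_eq_zero] at e6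
  exact sub_eq_zero.1 e6

theorem G_der (ok : m.OK) {f : V → V} (hf : ContDiff ℝ 2 f) (z ξ : V × V) :
    fderiv ℝ (fun z : V × V => (f z.1, L m f z.1 z.2)) z ξ =
      (fderiv ℝ f z.1 ξ.1, fderiv ℝ (L m f) z.1 ξ.1 z.2 + L m f z.1 ξ.2) := by
  have hL : HasFDerivAt (L m f) (fderiv ℝ (L m f) z.1) z.1 :=
    ((L_c1 ok hf).differentiable one_ne_zero z.1).hasFDerivAt
  have hD : HasFDerivAt f (fderiv ℝ f z.1) z.1 := (hf.differentiable two_ne_zero z.1).hasFDerivAt
  have a1 := (hD.comp z hasFDerivAt_fst).prodMk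
    ((hL.comp z hasFDerivAt_fst).clm_apply hasFDerivAt_snd)
  rw [show fderiv ℝ (fun z : V × V => (f z.1, L m f z.1 z.2)) z = _ from a1.fderiv]
  simp only [add_apply, ContinuousLinearMap.comp_apply,
    ContinuousLinearMap.flip_apply, ContinuousLinearMap.prod_apply, Function.comp_apply,
    ContinuousLinearMap.coe_fst', ContinuousLinearMap.coe_snd', add_comm]

theorem G_c1 (ok : m.OK) {f : V → V} (hf : ContDiff ℝ 2 f) :
    ContDiff ℝ 1 fun z : V × V => (f z.1, L m f z.1 z.2) :=
  ((hf.of_le (by norm_num)).comp contDiff_fst).prodMk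
    (((L_c1 ok hf).comp contDiff_fst).clm_apply contDiff_snd)

theorem hor_apply (z ξ : V × V) : m.hor z ξ = m.S z.1 ξ.1 := rfl

theorem ver_apply (z ξ : V × V) : m.ver z ξ = ξ.2 + m.om z.1 ξ.1 z.2 := rfl

theorem G_flow (ok : m.OK) {f : V → V} (hf : ContDiff ℝ 2 f)
    (hi : ∀ x a b, ⟪L m f x a, L m f x b⟫ = ⟪a, b⟫) (t : ℝ) (z : V × V) :
    m.Z t (f z.1, L m f z.1 z.2) = (f (m.Z t z).1, L m f (m.Z t z).1 (m.Z t z).2) := by
  have h1 : ∀ s, HasDerivAt (fun s => (f (m.Z s z).1, L m f (m.Z s z).1 (m.Z s z).2))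
      (m.vf (f (m.Z s z).1, L m f (m.Z s z).1 (m.Z s z).2)) s := fun s => by
    have a1 := ((G_c1 ok hf).differentiable one_ne_zero (m.Z s z)).hasFDerivAt.comp_hasDerivAt s
      (ok.ode z s)
    rw [G_der ok hf] at a1
    have a2 : ∀ w : V × V, (fderiv ℝ f w.1 (m.vf w).1,
        fderiv ℝ (L m f) w.1 (m.vf w).1 w.2 + L m f w.1 (m.vf w).2) =
        m.vf (f w.1, L m f w.1 w.2) := fun w => by
      have b1 : m.R (f w.1) (L m f w.1 w.2) = fderiv ℝ f w.1 (m.R w.1 w.2) := by
        simp only [L, ContinuousLinearMap.comp_apply, ok.RS]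
      have b2 := conn ok hf hi w.1 (m.R w.1 w.2) w.2
      simp only [MF.vf, b1, map_neg]
      refine Prod.ext rfl ?_
      show _ + -_ = -_
      rw [← b2]
      abel
    rw [a2] at a1
    exact a1
  have h2 := uniq ok h1 t
  simp only [ok.zero] at h2
  exact h2.symm

/-- A map that preserves inner products, as an equivalence. -/
def iso (A : V →L[ℝ] V) (h : ∀ a b, ⟪A a, A b⟫ = ⟪a, b⟫) : V ≃ₗᵢ[ℝ] V :=
  (A.toLinearMap.isometryOfInner h).toLinearIsometryEquiv rfl

theorem iso_apply (A : V →L[ℝ] V) (h : ∀ a b, ⟪A a, A b⟫ = ⟪a, b⟫) (a : V) : iso A h a = A a := rfl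

end AC

open AC in
theorem sACT : SACT := by
  intro h C Λ _ _ Ψ hQ _ m ok lk d2
  have hd := hQ.rp.deck
  have hi : ∀ (γ : Λ) x a b, ⟪L m (fun y => γ • y) x a, L m (fun y => γ • y) x b⟫ = ⟪a, b⟫ :=
    fun γ x a b => by
      rw [← lk.orth (γ • x), ← lk.orth x, ← hd.iso γ x]
      simp only [L, ContinuousLinearMap.comp_apply, ok.RS, tm]
  refine ⟨fun γ x => iso (L m (fun y => γ • y) x) (hi γ x), fun γ => G_c1 ok (d2 γ),
    fun γ x u => (L_S ok _ x u).symm, fun x a => ?_, fun γ δ x a => ?_, fun γ z ξ => ?_,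
    fun γ z ξ => ?_, fun γ t z => G_flow ok (d2 γ) (hi γ) t z, hd.cpt⟩
  · have a1 : (fun y : V => (1 : Λ) • y) = id := funext fun y => one_smul _ _
    rw [iso_apply, L, one_smul, a1, fderiv_id]
    exact ok.SR x a
  · have a1 : (fun y : V => (γ * δ) • y) = (fun y : V => γ • y) ∘ fun y : V => δ • y :=
      funext fun y => mul_smul _ _ _
    have a2 := fderiv_comp x ((d2 γ).differentiable two_ne_zero (δ • x))
      ((d2 δ).differentiable two_ne_zero x)
    rw [← a1] at a2
    simp only [iso_apply, L, ContinuousLinearMap.comp_apply, ok.RS]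
    rw [a2, mul_smul, ContinuousLinearMap.comp_apply]
  · simp only [iso_apply]
    rw [G_der ok (d2 γ), hor_apply, hor_apply, L_S ok]
  · simp only [iso_apply]
    rw [G_der ok (d2 γ), ver_apply, ver_apply, map_add, ← conn ok (d2 γ) (hi γ)]
    show _ + _ + _ = _ + (_ + _)
    abel

end

end Pool.Agent.MP_3ee8cb_gt.DN
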